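import Pool.Agent.H4.SE.Targets

/-!
# MP_45b854_al: the larger system and the list of the changes determine the smaller one
-/

set_option autoImplicit false

open Finset Equiv
open scoped Classical

namespace Pool.Agent.H99.SAE

open Pool.Agent.H4.SE

theorem pp_const {r : ℕ} {β : Type} (σ : Fin r → Perm β) (T : List (Fin r × Bool)) (k : ℕ) :
    pp σ T (T.length + k) = pp σ T T.length := by
  induction k with
  | zero => rfl
  | succ k ih =>
    have h : T[T.length + k]? = none := List.getElem?_eq_none (Nat.le_add_right _ _)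
    have e : pp σ T (T.length + (k + 1)) = (match T[T.length + k]? with
      | some x => Pool.Agent.H11.SAE.lp σ x
      | none => 1) * pp σ T (T.length + k) := rfl
    rw [e, h, ih]
    simp

theorem pf_IX (hIO : T_IO) : T_IX := by
  intro r d T k β _ ω ω' hW hZ hP
  have hZZ : ZZ T ω.1 (pt ω) = ZZ T ω'.1 (pt ω') := by
    funext e
    obtain ⟨j, l⟩ := e
    by_cases hl : l < (T j).length
    · exact (hZ j l hl).1
    · have h : lb T (j, l) = none := by
        have h1 : (T j)[l]? = none := List.getElem?_eq_none (Nat.le_of_not_lt hl)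
        simp [lb, h1]
      simp [ZZ, h]
  have hpt : ∀ (η : Oh r k β) (i : Fin r) (s : β), (η.2.1 i).1 = some s → pt η i = s := by
    intro η i s h
    simp [pt, h]
  have hWW : W T ω.1 = W T ω'.1 := by
    funext j
    apply Equiv.ext
    intro s
    by_cases h : ∃ l < (T j).length, ZZ T ω.1 (pt ω) (j, l) = some s
    · obtain ⟨l, hl, hs⟩ := h
      obtain ⟨h1, h2⟩ := hZ j l hl
      rw [← h1, hs] at h2
      simpa using h2
    · push Not at h
      have a1 := hIO r d T β ω.1 (fun i => (ω.2.1 i).1) (pt ω) (hpt ω) j s (T j).length le_rfl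
        (fun l hl => h l hl) (T j).length le_rfl
      have a2 := hIO r d T β ω'.1 (fun i => (ω'.2.1 i).1) (pt ω') (hpt ω') j s (T j).length le_rfl
        (fun l hl => by rw [← (hZ j l hl).1]; exact h l hl) (T j).length le_rfl
      have a3 : pp (ins ω.1 fun i => (ω.2.1 i).1) (T j) (T j).length (some s) =
          pp (ins ω'.1 fun i => (ω'.2.1 i).1) (T j) (T j).length (some s) :=
        congrArg (fun f : Perm (Option β) => f (some s)) (congrFun hW j)
      rw [a1, a2] at a3
      exact Option.some_injective _ a3
  refine ⟨?_, hZZ⟩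
  refine Prod.ext hWW ?_
  funext m j l
  by_cases hl : l ≤ (T j).length
  · exact hP m j l hl
  · obtain ⟨q, rfl⟩ := Nat.exists_eq_add_of_le (Nat.le_of_not_le hl)
    have h0 := hP m j (T j).length le_rfl
    simp only [WQ, pat] at h0 ⊢
    rw [pp_const, pp_const]
    exact h0

end Pool.Agent.H99.SAE
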